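import Mathlib

/-!
# The distance spectrum does not determine whether a graph is bipartite

Two connected graphs on twenty vertices with the same distance spectrum, one bipartite and the
other one containing a triangle. Both are blow-ups: the vertices of a small graph are replaced by
independent sets, adjacent vertices by complete bipartite graphs. The bipartite graph comes from
the path with four vertices and the class sizes `1, 14, 2, 3`, the other one from a graph with five
vertices, six edges and the class sizes `1, 1, 2, 8, 8`.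
-/

set_option autoImplicit false

namespace Pool.Agent.Results.MP_69260a_co.BipartiteMate

open Matrix Polynomial

/-- The distance matrix of a graph, over the reals. -/
noncomputable def distMatrix {V : Type} (G : SimpleGraph V) : Matrix V V ℝ :=
  Matrix.of fun u v => (G.dist u v : ℝ)

/-- The distance spectrum: the multiset of the eigenvalues (with multiplicity) of the distance
matrix. -/
noncomputable def distSpectrum {V : Type} [Fintype V] [DecidableEq V] (G : SimpleGraph V) :
    Multiset ℝ := (distMatrix G).charpoly.roots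

theorem dist_of {V : Type} (G : SimpleGraph V) (d : V → V → ℕ) (h0 : ∀ u, d u u = 0)
    (h1 : ∀ u v w, G.Adj v w → d u w ≤ d u v + 1)
    (h2 : ∀ u v, u ≠ v → ∃ w, G.Adj w v ∧ d u w + 1 = d u v) :
    (∀ u v, G.Reachable u v) ∧ ∀ u v, G.dist u v = d u v := by
  have hup : ∀ n u v, d u v = n → ∃ p : G.Walk u v, p.length = n := by
    intro n
    induction n with
    | zero =>
      intro u v h
      by_cases huv : u = v
      · subst huv
        exact ⟨SimpleGraph.Walk.nil, rfl⟩
      · obtain ⟨w, -, hw⟩ := h2 u v huv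
        omega
    | succ n ih =>
      intro u v h
      have huv : u ≠ v := by
        intro e
        subst e
        rw [h0] at h
        omega
      obtain ⟨w, hw1, hw2⟩ := h2 u v huv
      obtain ⟨p, hp⟩ := ih u w (by omega)
      exact ⟨p.concat hw1, by rw [SimpleGraph.Walk.length_concat, hp]⟩
  have hlow : ∀ u v (p : G.Walk u v) (x : V), d x v ≤ d x u + p.length := by
    intro u v p
    induction p with
    | nil => intro x; simp
    | cons h p ih =>
      intro x
      have e1 := h1 x _ _ h
      have e2 := ih x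
      rw [SimpleGraph.Walk.length_cons]
      omega
  have hr : ∀ u v, G.Reachable u v := fun u v => ⟨(hup _ u v rfl).choose⟩
  refine ⟨hr, fun u v => ?_⟩
  apply le_antisymm
  · obtain ⟨p, hp⟩ := hup _ u v rfl
    rw [← hp]
    exact SimpleGraph.dist_le p
  · obtain ⟨p, hp⟩ := (hr u v).exists_walk_length_eq_dist
    have := hlow u v p u
    rw [h0] at this
    omega

/-- classes of the first graph -/
def c1 (u : Fin 20) : Fin 4 :=
  if u.1 < 14 then 0 else if u.1 < 16 then 1 else if u.1 < 19 then 2 else 3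

/-- classes of the second graph -/
def c2 (u : Fin 20) : Fin 5 :=
  if u.1 < 1 then 0 else if u.1 < 2 then 1 else if u.1 < 4 then 2 else if u.1 < 12 then 3 else 4

/-- distances between the classes (different vertices), first graph -/
def s1 : Matrix (Fin 4) (Fin 4) ℕ := !![2, 1, 2, 1; 1, 2, 1, 2; 2, 1, 2, 3; 1, 2, 3, 2]

/-- distances between the classes (different vertices), second graph -/
def s2 : Matrix (Fin 5) (Fin 5) ℕ :=
  !![2, 1, 2, 1, 1; 1, 2, 1, 2, 1; 2, 1, 2, 1, 2; 1, 2, 1, 2, 2; 1, 1, 2, 2, 2]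

theorem s1_symm (a b : Fin 4) (h : s1 a b = 1) : s1 b a = 1 := by
  have : ∀ a b : Fin 4, s1 a b = s1 b a := by
    intro a b
    fin_cases a <;> fin_cases b <;> rfl
  rw [← this a b, h]

theorem s2_symm (a b : Fin 5) (h : s2 a b = 1) : s2 b a = 1 := by
  have : ∀ a b : Fin 5, s2 a b = s2 b a := by
    intro a b
    fin_cases a <;> fin_cases b <;> rfl
  rw [← this a b, h]

theorem s1_diag : ∀ a : Fin 4, s1 a a = 2 := by decide

theorem s2_diag : ∀ a : Fin 5, s2 a a = 2 := by decide

/-- The bipartite graph. -/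
def Γ : SimpleGraph (Fin 20) where
  Adj u v := s1 (c1 u) (c1 v) = 1
  symm := ⟨fun _ _ h => s1_symm _ _ h⟩
  loopless := ⟨fun u h => by rw [s1_diag] at h; omega⟩

/-- The graph with a triangle. -/
def Ω : SimpleGraph (Fin 20) where
  Adj u v := s2 (c2 u) (c2 v) = 1
  symm := ⟨fun _ _ h => s2_symm _ _ h⟩
  loopless := ⟨fun u h => by rw [s2_diag] at h; omega⟩

instance : DecidableRel Γ.Adj := fun u v => inferInstanceAs (Decidable (s1 (c1 u) (c1 v) = 1))
instance : DecidableRel Ω.Adj := fun u v => inferInstanceAs (Decidable (s2 (c2 u) (c2 v) = 1))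

/-- distance function, first graph -/
def d1 (u v : Fin 20) : ℕ := if u = v then 0 else s1 (c1 u) (c1 v)

/-- distance function, second graph -/
def d2 (u v : Fin 20) : ℕ := if u = v then 0 else s2 (c2 u) (c2 v)

theorem distΓ : (∀ u v, Γ.Reachable u v) ∧ ∀ u v, Γ.dist u v = d1 u v := by
  apply dist_of
  · intro u; simp [d1]
  · decide +kernel
  · decide +kernel

theorem distΩ : (∀ u v, Ω.Reachable u v) ∧ ∀ u v, Ω.dist u v = d2 u v := by
  apply dist_of
  · intro u; simp [d2]
  · decide +kernel
  · decide +kernel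

/-- incidence matrix of the classes -/
def P {k : ℕ} (c : Fin 20 → Fin k) : Matrix (Fin 20) (Fin k) ℝ :=
  Matrix.of fun u a => if c u = a then 1 else 0

theorem blow {k : ℕ} (hk : k ≤ 20) (c : Fin 20 → Fin k) (s : Matrix (Fin k) (Fin k) ℕ)
    (hs : ∀ a, s a a = 2)
    (m : Fin k → ℕ) (hm : ∀ a, (Finset.univ.filter fun u => c u = a).card = m a)
    (G : SimpleGraph (Fin 20)) (hG : ∀ u v, G.dist u v = if u = v then 0 else s (c u) (c v)) :
    (distMatrix G).charpoly = (X ^ (20 - k) *
      (Matrix.of fun a b => (s a b : ℝ) * (m b : ℝ)).charpoly).comp (X + C 2) := by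
  have h1 : distMatrix G = P c * ((s.map (Nat.cast : ℕ → ℝ)) * (P c)ᵀ) - scalar (Fin 20) 2 := by
    ext u v
    have h2 : (P c * ((s.map (Nat.cast : ℕ → ℝ)) * (P c)ᵀ)) u v = s (c u) (c v) := by
      simp [Matrix.mul_apply, P]
    rw [Matrix.sub_apply, h2]
    by_cases huv : u = v
    · subst huv
      simp [distMatrix, hs]
    · simp [distMatrix, hG, huv]
  rw [h1, charpoly_sub_scalar]
  rw [charpoly_mul_comm_of_le _ _ (by simpa using hk)]
  have h3 : (s.map (Nat.cast : ℕ → ℝ)) * (P c)ᵀ * P c =
      Matrix.of fun a b => (s a b : ℝ) * (m b : ℝ) := by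
    rw [Matrix.mul_assoc]
    have h4 : (P c)ᵀ * P c = Matrix.diagonal fun a => (m a : ℝ) := by
      ext a b
      rw [Matrix.mul_apply]
      by_cases hab : a = b
      · subst hab
        rw [Matrix.diagonal_apply_eq, ← hm a, Finset.card_filter]
        push_cast
        apply Finset.sum_congr rfl
        intro u _
        by_cases hu : c u = a <;> simp [P, hu]
      · rw [Matrix.diagonal_apply_ne _ hab]
        apply Finset.sum_eq_zero
        intro u _
        by_cases hu : c u = a
        · have : c u ≠ b := fun h => hab (hu.symm.trans h)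
          simp [P, this]
        · simp [P, hu]
    rw [h4]
    ext a b
    simp [Matrix.mul_diagonal]
  rw [h3]
  simp

/-- class sizes -/
def m1 : Fin 4 → ℕ := ![14, 2, 3, 1]

/-- class sizes -/
def m2 : Fin 5 → ℕ := ![1, 1, 2, 8, 8]

theorem cp1 : (Matrix.of fun a b => (s1 a b : ℝ) * (m1 b : ℝ)).charpoly =
    X ^ 4 - 40 * X ^ 3 + 129 * X ^ 2 + 384 * X - 1008 := by
  have h : (Matrix.of fun a b => (s1 a b : ℝ) * (m1 b : ℝ)) =
      !![28, 2, 6, 1; 14, 4, 3, 2; 28, 2, 6, 3; 14, 4, 9, 2] := by
    ext a b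
    fin_cases a <;> fin_cases b <;> simp [s1, m1] <;> norm_num
  rw [h, Matrix.charpoly]
  simp [Matrix.charmatrix_apply, Matrix.det_succ_row_zero, Fin.sum_univ_succ, Fin.succAbove,
    map_ofNat]
  ring

theorem cp2 : (Matrix.of fun a b => (s2 a b : ℝ) * (m2 b : ℝ)).charpoly =
    X * (X ^ 4 - 40 * X ^ 3 + 129 * X ^ 2 + 384 * X - 1008) := by
  have h : (Matrix.of fun a b => (s2 a b : ℝ) * (m2 b : ℝ)) =
      !![2, 1, 4, 8, 8; 1, 2, 2, 16, 8; 2, 1, 4, 8, 16; 1, 2, 2, 16, 16; 1, 1, 4, 16, 16] := by
    ext a b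
    fin_cases a <;> fin_cases b <;> simp [s2, m2] <;> norm_num
  rw [h, Matrix.charpoly]
  simp [Matrix.charmatrix_apply, Matrix.det_succ_row_zero, Fin.sum_univ_succ, Fin.succAbove,
    map_ofNat]
  ring

theorem spec_eq : (distMatrix Γ).charpoly = (distMatrix Ω).charpoly := by
  have hm1 : ∀ a, (Finset.univ.filter fun u => c1 u = a).card = m1 a := by decide +kernel
  have hm2 : ∀ a, (Finset.univ.filter fun u => c2 u = a).card = m2 a := by decide +kernel
  rw [blow (k := 4) (by norm_num) c1 s1 s1_diag m1 hm1 Γ distΓ.2,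
    blow (k := 5) (by norm_num) c2 s2 s2_diag m2 hm2 Ω distΩ.2, cp1, cp2]
  rw [← mul_assoc, ← pow_succ]

theorem result : ∃ Γ Ω : SimpleGraph (Fin 20), Γ.Connected ∧ Ω.Connected ∧
    distSpectrum Γ = distSpectrum Ω ∧ Γ.IsBipartite ∧ ¬ Ω.IsBipartite := by
  refine ⟨Γ, Ω, ⟨distΓ.1⟩, ⟨distΩ.1⟩, ?_, ?_, ?_⟩
  · unfold distSpectrum
    rw [spec_eq]
  · refine ⟨SimpleGraph.Coloring.mk (fun u => if (c1 u).1 % 2 = 0 then 0 else 1) ?_⟩
    intro u v h
    revert u v
    decide +kernel
  · rintro ⟨C⟩
    have h1 : Ω.Adj 0 1 := by decide +kernel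
    have h2 : Ω.Adj 1 12 := by decide +kernel
    have h3 : Ω.Adj 0 12 := by decide +kernel
    have e1 := C.valid h1
    have e2 := C.valid h2
    have e3 := C.valid h3
    omega

end Pool.Agent.Results.MP_69260a_co.BipartiteMate
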